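import Pool.Agent.Helper32.AG3.Cond

set_option autoImplicit false

namespace Pool.Agent.Results.MP_0f21ab_al.AbelianSylow

/-- A group is supersolvable if it has a finite chain `⊥ = H 0, H 1, …, H n = ⊤` of normal
subgroups such that each `H (i+1)` is generated by `H i` and one element. -/
def IsSupersolvable (G : Type*) [Group G] : Prop :=
  ∃ (n : ℕ) (H : ℕ → Subgroup G), H 0 = ⊥ ∧ H n = ⊤ ∧ (∀ i, (H i).Normal) ∧
    ∀ i, i < n → ∃ g : G, H (i + 1) = H i ⊔ Subgroup.zpowers g

/-- A group is abelian-by-nilpotent if it has an abelian normal subgroup with nilpotent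
quotient. -/
def IsAbelianByNilpotent (G : Type*) [Group G] : Prop :=
  ∃ (M : Subgroup G) (_ : M.Normal), (∀ x ∈ M, ∀ y ∈ M, x * y = y * x) ∧
    Group.IsNilpotent (G ⧸ M)

/-- Let `Z` be a term of the upper central series of the finite group `G` and `N` a solvable normal
subgroup of `Q = G / Z` such that the Sylow `p`-subgroups of `Q` are abelian for all primes `p`
dividing `|N|`, and such that `Q / N` is supersolvable or abelian-by-nilpotent. Then
`k(G) ≥ 1 + log_3 |G|`. -/
theorem result (G : Type*) [Group G] [Finite G] (n : ℕ)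
    (N : Subgroup (G ⧸ Subgroup.upperCentralSeries G n)) [N.Normal] (hs : Group.IsSolvable N)
    (hS : ∀ p : ℕ, p.Prime → p ∣ Nat.card N →
      ∀ P : Sylow p (G ⧸ Subgroup.upperCentralSeries G n), ∀ x ∈ P, ∀ y ∈ P, x * y = y * x)
    (hT : IsSupersolvable ((G ⧸ Subgroup.upperCentralSeries G n) ⧸ N) ∨
      IsAbelianByNilpotent ((G ⧸ Subgroup.upperCentralSeries G n) ⧸ N)) :
    1 + Real.logb 3 (Nat.card G) ≤ Nat.card (ConjClasses G) :=
  Helper32.AG.logb_form (Helper32.AG3.of_hyper Helper32.AG3.clsS Helper32.AG3.main n G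
    (Helper32.AG3.cls_of N hs hS hT))

end Pool.Agent.Results.MP_0f21ab_al.AbelianSylow
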