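import Pool.Agent.Helper71.KG.DL2

/-!
Bertram's question for finite groups whose third derived subgroup lies in the hypercentre, and for
finite groups whose `d`-th derived subgroup lies in the hypercentre `Z` and with `|G : G'Z|` large
compared with `d`.
-/
namespace Pool.Agent.Results.MP_0f21ab_al.DerivedLength

theorem result (G : Type*) [Group G] [Finite G] (d n : ℕ)
    (hd : derivedSeries G d ≤ Subgroup.upperCentralSeries G n)
    (h : d ≤ 3 ∨ d * 2 ^ d ≤ (commutator G ⊔ Subgroup.upperCentralSeries G n).index) :
    Real.logb 3 (Nat.card G) < Nat.card (ConjClasses G) := by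
  have key : Nat.card G < 3 ^ Helper46.KG.k G := Helper71.KG.of_hyper n d G hd h
  rw [Real.logb_lt_iff_lt_rpow (by norm_num) (by exact_mod_cast Nat.card_pos), Real.rpow_natCast]
  exact_mod_cast key

end Pool.Agent.Results.MP_0f21ab_al.DerivedLength
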