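import Pool.Agent.Helper46.KG.Final

/-!
Bertram's question for nilpotent-by-abelian groups.
-/
namespace Pool.Agent.Results.MP_0f21ab_al.NilpotentByAbelian

/-- `P` is supersolvably embedded in `G`: there is a finite chain `⊥ = H 0, H 1, …, H n = P` of
normal subgroups of `G` such that each `H (i+1)` is generated by `H i` and one element. -/
def SE (G : Type*) [Group G] (P : Subgroup G) : Prop :=
  ∃ (n : ℕ) (H : ℕ → Subgroup G), H 0 = ⊥ ∧ H n = P ∧ (∀ i, (H i).Normal) ∧
    ∀ i, i < n → ∃ g : G, H (i + 1) = H i ⊔ Subgroup.zpowers g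

theorem result (G : Type*) [Group G] [Finite G] (N : Subgroup G) [N.Normal] (c : ℕ)
    (hnil : Group.IsNilpotent N) (hab : commutator G ≤ N)
    (hc : c ≤ 5 ∨ N.index * (N.index + 1) ^ c < 3 ^ (N.index + c))
    (hP : ∀ P : Subgroup G, P.Normal → P ≤ N → (∃ p : ℕ, p.Prime ∧ IsPGroup p P) →
      P.lowerCentralSeries c = ⊥ ∨ SE G P) :
    Real.logb 3 (Nat.card G) < Nat.card (ConjClasses G) := by
  have h := Helper46.KG.logb_lt (b := 3) (by norm_num) Nat.card_pos
    (Helper46.KG.log_three_of_mixed G N c hnil hab hc hP)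
  exact_mod_cast h

end Pool.Agent.Results.MP_0f21ab_al.NilpotentByAbelian
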