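import Pool.Agent.Helper46.KG.Final

/-!
Bertram's question for supersolvable groups, with the logarithm to base 2.
-/
namespace Pool.Agent.Results.MP_0f21ab_al.Supersolvable

/-- A group is supersolvable if it has a finite chain `⊥ = H 0, H 1, …, H n = ⊤` of normal
subgroups such that each `H (i+1)` is generated by `H i` and one element. -/
def IsSupersolvable (G : Type*) [Group G] : Prop :=
  ∃ (n : ℕ) (H : ℕ → Subgroup G), H 0 = ⊥ ∧ H n = ⊤ ∧ (∀ i, (H i).Normal) ∧
    ∀ i, i < n → ∃ g : G, H (i + 1) = H i ⊔ Subgroup.zpowers g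

theorem result (G : Type*) [Group G] [Finite G] (hG : IsSupersolvable G) :
    Real.logb 2 (Nat.card G) < Nat.card (ConjClasses G) :=
  Helper46.KG.logb_lt (b := 2) (by norm_num) Nat.card_pos
    (Helper46.KG.log_two_of_supersolvable G hG)

end Pool.Agent.Results.MP_0f21ab_al.Supersolvable
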